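import Pool.Agent.H51.CST.Defs

/-!
# Points on plane curves over finite fields: the rows

`k` is a field (finite in the rows which say so), `mu` a monic polynomial in `Y` over `k[X]` of
degree `d` in `Y` whose coefficients have degree at most `e`, `R = AdjoinRoot mu` its coordinate
ring with the functions `x = xR mu`, `y = yR mu`.  `R2 mu` is the ring of the pairs `(P, P')` of
points with the same `x`, off the diagonal: `mu2 mu` is the quotient of `mu(Y')` by `Y' - y`.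
-/

open Polynomial

namespace Pool.Agent.H51.CST

noncomputable section

/-- FIL: the filtration is monotone, multiplicative, contains the generators and is preserved by
homomorphisms. -/
def T_FIL : Prop :=
  ∀ (k : Type) [Field k] (S : Type) [CommRing S] [Algebra k S] (x y z : S) (e : ℕ),
    (∀ n m, n ≤ m → Fil k x y z e n ≤ Fil k x y z e m) ∧
    (∀ n m u v, u ∈ Fil k x y z e n → v ∈ Fil k x y z e m → u * v ∈ Fil k x y z e (n + m)) ∧
    (∀ c : k, algebraMap k S c ∈ Fil k x y z e 0) ∧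
    x ∈ Fil k x y z e 1 ∧ y ∈ Fil k x y z e e ∧ z ∈ Fil k x y z e e ∧
    (∀ (g : k[X]) n, g.natDegree ≤ n → aeval x g ∈ Fil k x y z e n) ∧
    ∀ (S' : Type) [CommRing S'] [Algebra k S'] (f : S →ₐ[k] S') (n : ℕ) (u : S),
      u ∈ Fil k x y z e n → f u ∈ Fil k (f x) (f y) (f z) e n

/-- ABS: reduction of the powers of the root of a monic polynomial whose `i`-th coefficient has
weight at most `e (c - i)`. -/
def T_ABS : Prop :=
  ∀ (k : Type) [Field k] (S : Type) [CommRing S] [Algebra k S] (FF : ℕ → Submodule k S)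
    (e c : ℕ) (ν : S[X]), (∀ n m, n ≤ m → FF n ≤ FF m) →
    (∀ n m u v, u ∈ FF n → v ∈ FF m → u * v ∈ FF (n + m)) → ν.Monic → ν.natDegree = c →
    (∀ i, i < c → ν.coeff i ∈ FF (e * (c - i))) →
    ∀ (l m n : ℕ) (u : S), m + e * l ≤ n → u ∈ FF m →
    AdjoinRoot.of ν u * AdjoinRoot.root ν ^ l ∈ Submodule.span k {w | ∃ (l' m' : ℕ) (u' : S),
      l' < c ∧ m' + e * l' ≤ n ∧ u' ∈ FF m' ∧ w = AdjoinRoot.of ν u' * AdjoinRoot.root ν ^ l'}

/-- RED: the coordinates of an element of the filtration have bounded degree (from ABS with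
`S = k[X]`). -/
def T_RED : Prop :=
  ∀ (k : Type) [Field k] (d e : ℕ) (D : Dat k d e) (n : ℕ) (v : AdjoinRoot D.mu), 1 ≤ d →
    1 ≤ e → v ∈ F1 D.mu e n → ∀ j, (crd D.monic v j).natDegree ≤ n

/-- CNV: elementary facts on the coordinates, and the converse of RED. -/
def T_CNV : Prop :=
  ∀ (k : Type) [Field k] (d e : ℕ) (D : Dat k d e), 1 ≤ d →
    (∀ v : AdjoinRoot D.mu, v = ∑ j ∈ Finset.range d, aeval (xR D.mu) (crd D.monic v j) *
      yR D.mu ^ j) ∧
    (∀ (v : AdjoinRoot D.mu) j, d ≤ j → crd D.monic v j = 0) ∧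
    (∀ (u v : AdjoinRoot D.mu) j, crd D.monic (u + v) j = crd D.monic u j + crd D.monic v j) ∧
    (∀ (g : k[X]) (v : AdjoinRoot D.mu) j,
      crd D.monic (aeval (xR D.mu) g * v) j = g * crd D.monic v j) ∧
    (∀ P : k[X][X], ∀ j, crd D.monic (AdjoinRoot.mk D.mu P) j = (P %ₘ D.mu).coeff j) ∧
    (∀ (c : Fin d → k[X]) (j : Fin d), crd D.monic (∑ i, aeval (xR D.mu) (c i) *
      yR D.mu ^ (i : ℕ)) j = c j) ∧
    ∀ (n : ℕ) (v : AdjoinRoot D.mu), (∀ j, (crd D.monic v j).natDegree ≤ n) →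
      v ∈ F1 D.mu e (n + e * d)

/-- RD2: the dimension of the filtration of the ring of pairs (from ABS, RED, CNV). -/
def T_RD2 : Prop :=
  ∀ (k : Type) [Field k] (d e : ℕ) (D : Dat k d e) (n : ℕ), 2 ≤ d → 1 ≤ e →
    Module.Finite k (F2 D.mu e n) ∧ Module.finrank k (F2 D.mu e n) ≤ (n + 1) * (d * (d - 1))

/-- MU2: the equation of the second root. -/
def T_MU2 : Prop :=
  ∀ (k : Type) [Field k] (d e : ℕ) (D : Dat k d e), 1 ≤ d → 1 ≤ e →
    (X - C (yR D.mu)) * mu2 D.mu = D.mu.map (AdjoinRoot.of D.mu) ∧ (mu2 D.mu).Monic ∧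
    (mu2 D.mu).natDegree = d - 1 ∧
    ∀ i, i < d - 1 → (mu2 D.mu).coeff i ∈ F1 D.mu e (e * (d - 1 - i))

/-- PIG: the pigeonhole lemma (norm to `k[X]`). -/
def T_PIG : Prop :=
  ∀ (k : Type) [Field k] (d e : ℕ) (D : Dat k d e) (a : ℕ) (c : AdjoinRoot D.mu), 1 ≤ d →
    1 ≤ e → (∀ j, (crd D.monic c j).natDegree ≤ a) → c ≠ 0 →
    ∃ (b : AdjoinRoot D.mu) (g : k[X]), b ≠ 0 ∧ b ∈ F1 D.mu e (pig a e d + e * d) ∧ g ≠ 0 ∧
      g.natDegree ≤ pig a e d + a + 2 * e * d ∧ c * b = aeval (xR D.mu) g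

/-- HEN: the expansion of `y` at `x + (Δ x) ^ 2 T`, with bounded coefficients. -/
def T_HEN : Prop :=
  ∀ (d e del v M : ℕ), 1 ≤ d → 1 ≤ e → ∃ C0 : ℕ, ∀ (k : Type) [Field k] (D : Dat k d e)
    (Del : k[X]) (V : AdjoinRoot D.mu), Del ≠ 0 → Del.natDegree ≤ del → V ≠ 0 →
    V ∈ F1 D.mu e v →
    V * aeval (yR D.mu) (derivative D.mu) = aeval (xR D.mu) Del →
    ∃ r : (AdjoinRoot D.mu)[X], (∀ m, r.coeff m ∈ F1 D.mu e C0) ∧ r.coeff 0 = yR D.mu ∧
      X ^ M ∣ (D.mu.map (Sh D.mu Del).toRingHom).eval r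

/-- HE1: the Newton step in HEN. -/
def T_HE1 : Prop :=
  ∀ (k : Type) [Field k] (d e : ℕ) (D : Dat k d e) (Del : k[X]) (V : AdjoinRoot D.mu),
    V * aeval (yR D.mu) (derivative D.mu) = aeval (xR D.mu) Del →
    (∃ E : (AdjoinRoot D.mu)[X], C V * (D.mu.map (Sh D.mu Del).toRingHom).eval (C (yR D.mu)) =
      C (aeval (xR D.mu) Del ^ 2) * X * E) ∧
    ∀ (n : ℕ) (s E : (AdjoinRoot D.mu)[X]), X ∣ s →
      C V * (D.mu.map (Sh D.mu Del).toRingHom).eval
        (C (yR D.mu) + C (aeval (xR D.mu) Del) * s) =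
          C (aeval (xR D.mu) Del ^ 2) * X ^ (n + 1) * E →
      ∃ E' : (AdjoinRoot D.mu)[X], C V * (D.mu.map (Sh D.mu Del).toRingHom).eval
        (C (yR D.mu) + C (aeval (xR D.mu) Del) * (s - C (E.coeff 0) * X ^ (n + 1))) =
          C (aeval (xR D.mu) Del ^ 2) * X ^ (n + 2) * E'

/-- LIN: the auxiliary function exists (linear algebra, from FIL and RD2). -/
def T_LIN : Prop :=
  ∀ (k : Type) [Field k] (d e : ℕ) (D : Dat k d e) (Del : k[X]) (r : (AdjoinRoot D.mu)[X])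
    (del M C0 A B : ℕ), 2 ≤ d → 1 ≤ e → Del.natDegree ≤ del →
    (∀ m, r.coeff m ∈ F1 D.mu e C0) →
    M * ((A + 2 * del * M + d * C0 + B + e * d + 1) * (d * (d - 1))) < A * d * (B * d) →
    ∃ a : Fin A × Fin d × Fin B × Fin d → k, a ≠ 0 ∧
      ∀ m < M, (Psi D.mu Del r a).coeff m = 0

/-- NVL: non-vanishing of sums of `q`-th powers of power series. -/
def T_NVL : Prop :=
  ∀ (k : Type) [Field k] [Finite k] (n : ℕ) (w c : Fin n → PowerSeries k),
    LinearIndependent k w →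
    (∀ l : Fin n → k, ∑ i, l i • c i ≠ 0 → (∑ i, l i • c i).order < (Nat.card k : ℕ)) →
    ∑ i, c i * w i ^ Nat.card k = 0 → ∀ i, c i = 0

/-- NVR: the auxiliary function does not vanish on the curve (from NVL, PIG, CNV). -/
def T_NVR : Prop :=
  ∀ (k : Type) [Field k] [Finite k] (d e : ℕ) (D : Dat k d e) (A B : ℕ)
    (φ : AdjoinRoot D.mu →ₐ[k[X]] PowerSeries k) (a : Fin A × Fin d × Fin B × Fin d → k),
    1 ≤ d → 1 ≤ e → Function.Injective φ → a ≠ 0 →
    pig A e d + A + 2 * e * d < Nat.card k →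
    AdjoinRoot.mk D.mu (Phi (Nat.card k) a) ≠ 0

/-- VDM: a polynomial of degree less than `d` over `K[t]` with `d` zeros modulo `t ^ M`, distinct
modulo `t`, is divisible by `t ^ M`. -/
def T_VDM : Prop :=
  ∀ (K : Type) [Field K] (P : K[X][X]) (M : ℕ) (Z : Finset K) (r : K → K[X]),
    P.natDegree < Z.card → (∀ b ∈ Z, (r b).coeff 0 = b) → (∀ b ∈ Z, X ^ M ∣ P.eval (r b)) →
    ∀ j, X ^ M ∣ P.coeff j

/-- ZE1: the auxiliary function at one point above `x0` (from MU2). -/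
def T_ZE1 : Prop :=
  ∀ (k : Type) [Field k] [Finite k] (K : Type) [Field K] [Algebra k K] (d e : ℕ) (D : Dat k d e)
    (Del : k[X]) (r : (AdjoinRoot D.mu)[X]) (M A B : ℕ)
    (a : Fin A × Fin d × Fin B × Fin d → k) (x0 : k) (β : K), 1 ≤ d → 1 ≤ e →
    M ≤ Nat.card k → r.coeff 0 = yR D.mu →
    X ^ M ∣ (D.mu.map (Sh D.mu Del).toRingHom).eval r →
    (∀ m < M, (Psi D.mu Del r a).coeff m = 0) →
    Del.eval x0 ≠ 0 → aeval β (at0 D.mu x0) = 0 → β ^ Nat.card k ≠ β →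
    ∃ r0 : K[X], r0.coeff 0 = β ∧ X ^ M ∣ ((Phi (Nat.card k) a %ₘ D.mu).map
      (aeval (C (algebraMap k K x0) + X : K[X]) : k[X] →ₐ[k] K[X]).toRingHom).eval r0

/-- ZER: the auxiliary function vanishes to order `M` above every `x0` in `k` above which there
is no rational point (from VDM, ZE1). -/
def T_ZER : Prop :=
  ∀ (k : Type) [Field k] [Finite k] (d e : ℕ) (D : Dat k d e) (Del : k[X])
    (V : AdjoinRoot D.mu) (r : (AdjoinRoot D.mu)[X]) (M A B : ℕ)
    (a : Fin A × Fin d × Fin B × Fin d → k) (x0 : k), 1 ≤ d → 1 ≤ e →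
    M ≤ Nat.card k →
    V * aeval (yR D.mu) (derivative D.mu) = aeval (xR D.mu) Del → r.coeff 0 = yR D.mu →
    X ^ M ∣ (D.mu.map (Sh D.mu Del).toRingHom).eval r →
    (∀ m < M, (Psi D.mu Del r a).coeff m = 0) →
    Del.eval x0 ≠ 0 → (∀ y : k, (at0 D.mu x0).eval y ≠ 0) →
    ∀ j, (X - C x0) ^ M ∣ (Phi (Nat.card k) a %ₘ D.mu).coeff j

/-- CNT: counting zeros. -/
def T_CNT : Prop :=
  ∀ (k : Type) [Field k] (P : k[X][X]) (N M : ℕ) (Z : Finset k), P ≠ 0 →
    (∀ j, (P.coeff j).natDegree ≤ N) → (∀ x0 ∈ Z, ∀ j, (X - C x0) ^ M ∣ P.coeff j) →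
    Z.card * M ≤ N

/-- COR: at least `1 / (4 d)` of the elements of `k` are first coordinates of rational points
(from all the rows above). -/
def T_COR : Prop :=
  ∀ d e : ℕ, 1 ≤ d → 1 ≤ e → ∃ N0 : ℕ, ∀ (k : Type) [Field k] [Finite k] (D : Dat k d e)
    (φ : AdjoinRoot D.mu →ₐ[k[X]] PowerSeries k), Function.Injective φ →
    aeval (yR D.mu) (derivative D.mu) ≠ 0 →
    Nat.card k ≤ 4 * d * {x0 : k | ∃ y : k, (at0 D.mu x0).eval y = 0}.ncard + N0

/-- FIN: a monic plane curve with a simple rational point above `0` has a rational point off a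
given curve which does not pass through it (from COR, PIG, CNV; Hensel's lemma in `k⟦X⟧`). -/
def T_FIN : Prop :=
  ∀ D : ℕ, ∃ N : ℕ, ∀ (k : Type) [Field k] [Finite k], N ≤ Nat.card k → ∀ G g : k[X][X],
    G.Monic → G.natDegree ≤ D → (∀ j, (G.coeff j).natDegree ≤ D) → g.natDegree ≤ D →
    (∀ j, (g.coeff j).natDegree ≤ D) → ∀ y0 : k, (at0 G 0).eval y0 = 0 →
    (derivative (at0 G 0)).eval y0 ≠ 0 → (at0 g 0).eval y0 ≠ 0 →
    ∃ x y : k, x ≠ 0 ∧ (at0 G x).eval y = 0 ∧ (at0 g x).eval y ≠ 0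

/-! ### Ultraproducts and lifting -/

/-- a monic plane curve with a simple rational point above `0` has a rational point off a given
curve which does not pass through it -/
def PacL (k : Type) [Field k] : Prop :=
  ∀ G g : k[X][X], G.Monic → ∀ y0 : k, (at0 G 0).eval y0 = 0 →
    (derivative (at0 G 0)).eval y0 ≠ 0 → (at0 g 0).eval y0 ≠ 0 →
    ∃ x y : k, x ≠ 0 ∧ (at0 G x).eval y = 0 ∧ (at0 g x).eval y ≠ 0

/-- ULT: a quotient of a product of larger and larger finite fields by a maximal ideal which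
contains the finitely supported sequences has the property `PacL` (from FIN). -/
def T_ULT : Prop :=
  ∀ (F : ℕ → Type) [∀ n, Field (F n)] [∀ n, Finite (F n)] (M : Ideal (∀ n, F n)) [M.IsMaximal],
    (∀ n, n ≤ Nat.card (F n)) →
    (∀ x : ∀ n, F n, {n | x n ≠ 0}.Finite → x ∈ M) →
    letI : Field ((∀ n, F n) ⧸ M) := Ideal.Quotient.field M
    PacL ((∀ n, F n) ⧸ M)

/-- the point `(e, z)` -/
def pnt {A σ : Type} (e : A) (z : σ → A) : Option σ → A := fun o => o.elim e z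

/-- a transversal rational zero at `e = 0` implies a rational zero with `e` non-zero -/
def LiftP (k : Type) [Field k] : Prop :=
  ∀ (σ : Type) [Fintype σ] (n : ℕ) (G : Fin n → MvPolynomial (Option σ) k) (z0 : σ → k)
    (s : Fin n → σ), (∀ i, MvPolynomial.eval (pnt 0 z0) (G i) = 0) →
    (Matrix.of fun i j => MvPolynomial.eval (pnt 0 z0)
      (MvPolynomial.pderiv (some (s j)) (G i))).det ≠ 0 →
    ∀ H : MvPolynomial (Option σ) k, MvPolynomial.eval (pnt 0 z0) H ≠ 0 →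
    ∃ (ε : k) (z : σ → k), ε ≠ 0 ∧ (∀ i, MvPolynomial.eval (pnt ε z) (G i) = 0) ∧
      MvPolynomial.eval (pnt ε z) H ≠ 0

/-- LFT: local structure of etale algebras (`Algebra.IsEtaleAt.exists_isStandardEtale`). -/
def T_LFT : Prop := ∀ (k : Type) [Field k], PacL k → LiftP k

end

end Pool.Agent.H51.CST
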