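import Pool.Agent.H51.CST.Targets

/-!
# The equation of the second root
-/

open Polynomial

namespace Pool.Agent.H51.CST

noncomputable section

theorem pf_MU2 (hFIL : T_FIL) : T_MU2 := by
  intro k _ d e D hd he
  haveI := D.dom
  obtain ⟨hmono, hmul, -, -, hy, -, hpoly, -⟩ :=
    hFIL k (AdjoinRoot D.mu) (xR D.mu) (yR D.mu) 1 e
  have hroot : IsRoot (D.mu.map (AdjoinRoot.of D.mu)) (AdjoinRoot.root D.mu) := by
    rw [IsRoot.def, eval_map]
    exact AdjoinRoot.eval₂_root D.mu
  have h1 : (X - C (yR D.mu)) * mu2 D.mu = D.mu.map (AdjoinRoot.of D.mu) :=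
    mul_divByMonic_eq_iff_isRoot.mpr hroot
  have hmon : (D.mu.map (AdjoinRoot.of D.mu)).Monic := D.monic.map _
  have hdeg : (D.mu.map (AdjoinRoot.of D.mu)).natDegree = d := by
    rw [D.monic.natDegree_map, D.deg]
  have h2 : (mu2 D.mu).Monic := by
    refine Monic.of_mul_monic_left (monic_X_sub_C (yR D.mu)) ?_
    rw [h1]; exact hmon
  have h3 : (mu2 D.mu).natDegree = d - 1 := by
    have h := (monic_X_sub_C (yR D.mu)).natDegree_mul h2
    rw [h1, hdeg, natDegree_X_sub_C] at h
    omega
  refine ⟨h1, h2, h3, ?_⟩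
  -- the recursion for the coefficients
  have hrec : ∀ i, (mu2 D.mu).coeff i = AdjoinRoot.of D.mu (D.mu.coeff (i + 1)) +
      yR D.mu * (mu2 D.mu).coeff (i + 1) := by
    intro i
    have h := congrArg (fun P => P.coeff (i + 1)) h1
    simp only [coeff_map, sub_mul, coeff_sub, coeff_X_mul, coeff_C_mul] at h
    rw [← h]; ring
  have hof : ∀ g : k[X], AdjoinRoot.of D.mu g = aeval (xR D.mu) g := by
    intro g
    have : (aeval (xR D.mu) g : AdjoinRoot D.mu) = AdjoinRoot.of D.mu g := by
      induction g using Polynomial.induction_on' with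
      | add p q hp hq => rw [map_add, map_add, hp, hq]
      | monomial n a =>
        rw [aeval_monomial, xR, ← map_pow, ← C_mul_X_pow_eq_monomial, map_mul]
        rfl
    exact this.symm
  have key : ∀ t, ∀ i, i + t = d - 1 → (mu2 D.mu).coeff i ∈ F1 D.mu e (e * t) := by
    intro t
    induction t with
    | zero =>
      intro i hi
      have : (mu2 D.mu).coeff i = 1 := by
        rw [show i = (mu2 D.mu).natDegree by rw [h3]; omega]
        exact h2
      rw [this]
      have h0 := hpoly 1 (e * 0) (by simp)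
      rwa [map_one] at h0
    | succ t ih =>
      intro i hi
      rw [hrec i]
      refine Submodule.add_mem _ ?_ ?_
      · rw [hof]
        exact hpoly _ _ ((D.bd (i + 1)).trans (by nlinarith))
      · have h := hmul e (e * t) (yR D.mu) _ hy (ih (i + 1) (by omega))
        exact hmono _ _ (by nlinarith) h
  intro i hi
  exact key (d - 1 - i) i (by omega)

end

end Pool.Agent.H51.CST
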