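import Pool.Agent.H51.CST.Targets

/-!
# The dimension of the filtration of the ring of pairs
-/

open Polynomial

namespace Pool.Agent.H51.CST

noncomputable section

theorem pf_RD2 (hFIL : T_FIL) (hABS : T_ABS) (hMU2 : T_MU2) (hRED : T_RED) (hCNV : T_CNV) :
    T_RD2 := by
  intro k _ d e D n hd he
  haveI := D.dom
  obtain ⟨hmono, hmul, -, -, -, -, -, -⟩ :=
    hFIL k (AdjoinRoot D.mu) (xR D.mu) (yR D.mu) 1 e
  obtain ⟨-, hmon, hdeg, hcf⟩ := hMU2 k d e D (by omega) he
  obtain ⟨hexp, -, -, -, -, -, -⟩ := hCNV k d e D (by omega)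
  -- the finite family
  set T : Fin (n + 1) × Fin d × Fin (d - 1) → R2 D.mu :=
    fun s => x2 D.mu ^ (s.1 : ℕ) * y2 D.mu ^ (s.2.1 : ℕ) * z2 D.mu ^ (s.2.2 : ℕ) with hT
  have halg : ∀ c : k, algebraMap k (R2 D.mu) c =
      AdjoinRoot.of (mu2 D.mu) (algebraMap k (AdjoinRoot D.mu) c) := fun c => rfl
  -- one element of the form `of u * z ^ l`
  have hone : ∀ (l m : ℕ) (u : AdjoinRoot D.mu), l < d - 1 → m + e * l ≤ n →
      u ∈ F1 D.mu e m → AdjoinRoot.of (mu2 D.mu) u * AdjoinRoot.root (mu2 D.mu) ^ l ∈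
        Submodule.span k (Set.range T) := by
    intro l m u hl hmn hu
    have hdg := hRED k d e D m u (by omega) he hu
    rw [hexp u, map_sum, Finset.sum_mul]
    refine Submodule.sum_mem _ fun j hj => ?_
    have hj' := Finset.mem_range.mp hj
    have hg : aeval (xR D.mu) (crd D.monic u j) = ∑ i ∈ Finset.range (n + 1),
        algebraMap k (AdjoinRoot D.mu) ((crd D.monic u j).coeff i) * xR D.mu ^ i := by
      rw [aeval_eq_sum_range' (n := n + 1) (lt_of_le_of_lt (hdg j) (by nlinarith))]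
      exact Finset.sum_congr rfl fun i _ => Algebra.smul_def _ _
    rw [hg, Finset.sum_mul, map_sum, Finset.sum_mul]
    refine Submodule.sum_mem _ fun i hi => ?_
    have hi' := Finset.mem_range.mp hi
    have : AdjoinRoot.of (mu2 D.mu) (algebraMap k (AdjoinRoot D.mu)
        ((crd D.monic u j).coeff i) * xR D.mu ^ i * yR D.mu ^ j) *
          AdjoinRoot.root (mu2 D.mu) ^ l =
        (crd D.monic u j).coeff i • T (⟨i, hi'⟩, ⟨j, hj'⟩, ⟨l, hl⟩) := by
      rw [Algebra.smul_def, halg, hT]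
      simp only [map_mul, map_pow, x2, y2, z2]
      ring
    rw [this]
    exact Submodule.smul_mem _ _ (Submodule.subset_span ⟨_, rfl⟩)
  have hle : F2 D.mu e n ≤ Submodule.span k (Set.range T) := by
    refine Submodule.span_le.mpr ?_
    rintro v ⟨i, j, l, hw, rfl⟩
    have hu : xR D.mu ^ i * yR D.mu ^ j ∈ F1 D.mu e (i + e * j) := by
      refine Submodule.subset_span ⟨i, j, 0, by simp, by simp⟩
    have h := hABS k (AdjoinRoot D.mu) (F1 D.mu e) e (d - 1) (mu2 D.mu)
      (fun a b hab => hmono a b hab) (fun a b u v hu hv => hmul a b u v hu hv) hmon hdeg hcf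
      l (i + e * j) n _ hw hu
    have h1 : x2 D.mu ^ i * y2 D.mu ^ j * z2 D.mu ^ l =
        AdjoinRoot.of (mu2 D.mu) (xR D.mu ^ i * yR D.mu ^ j) *
          AdjoinRoot.root (mu2 D.mu) ^ l := by
      simp only [map_mul, map_pow, x2, y2, z2]
    rw [SetLike.mem_coe, h1]
    refine Submodule.span_le.mpr ?_ h
    rintro w ⟨l', m', u', hl', hm', hu', rfl⟩
    exact hone l' m' u' hl' hm' hu'
  haveI : Module.Finite k (Submodule.span k (Set.range T)) :=
    Module.Finite.span_of_finite k (Set.finite_range T)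
  refine ⟨Submodule.finiteDimensional_of_le hle, (Submodule.finrank_mono hle).trans ?_⟩
  have h := finrank_range_le_card (R := k) T
  rw [Set.finrank, Fintype.card_prod, Fintype.card_prod, Fintype.card_fin, Fintype.card_fin,
    Fintype.card_fin] at h
  exact h

end

end Pool.Agent.H51.CST
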