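import Pool.Agent.H51.CST.Large
import Pool.Agent.H97.CST.FIL
import Pool.Agent.H5.CST.ABS
import Pool.Agent.H79.CST.RED
import Pool.Agent.H40.CST.CNV
import Pool.Agent.H40.CST.PIG
import Pool.Agent.H64.CST.CNT
import Pool.Agent.H64.CST.HE1
import Pool.Agent.H11.CST.NVL
import Pool.Agent.H41.CST.NVR
import Pool.Agent.H41.CST.ZER
import Pool.Agent.H17.CST.VDM
import Pool.Agent.H17.CST.ULT
import Pool.Agent.H4.CST.LIN
import Pool.Agent.H12.CST.COR
import Pool.Agent.H57.CST.FIN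
import Pool.Agent.H57.CST.LFT
import Pool.Agent.H4.CST.HEN
import Pool.Agent.H46.CST.ZE1
import Pool.Agent.H51.CST.MU2
import Pool.Agent.H51.CST.RD2

/-!
# Points on plane curves over finite fields and cycles of length 8: assembly

`c_FIN` is the statement on the points of plane curves over finite fields (a case of the bound of
Hasse and Weil with a weaker constant, proved by the method of Stepanov), `c_ULT` its transfer to
quotients of products of finite fields, `c_LFT` the lifting of transversal zeros over such a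
quotient.
-/

open Pool.Agent.H51.ADG

namespace Pool.Agent.H51.CST

theorem c_FIN : T_FIN := by
  have hFIL : T_FIL := Pool.Agent.H97.CST.pf_FIL
  have hABS : T_ABS := Pool.Agent.H5.CST.pf_ABS
  have hRED : T_RED := Pool.Agent.H79.CST.pf_RED hABS
  have hCNV : T_CNV := Pool.Agent.H40.CST.pf_CNV hFIL
  have hPIG : T_PIG := Pool.Agent.H40.CST.pf_PIG hFIL hCNV hRED
  have hMU2 : T_MU2 := pf_MU2 hFIL
  have hRD2 : T_RD2 := pf_RD2 hFIL hABS hMU2 hRED hCNV
  have hHEN : T_HEN := Pool.Agent.H4.CST.pf_HEN hFIL hRED hCNV Pool.Agent.H64.CST.pf_HE1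
  have hLIN : T_LIN := Pool.Agent.H4.CST.pf_LIN hFIL hRD2
  have hNVR : T_NVR := Pool.Agent.H41.CST.pf_NVR Pool.Agent.H11.CST.pf_NVL hPIG hCNV
  have hZE1 : T_ZE1 := Pool.Agent.H46.CST.pf_ZE1 hMU2
  have hZER : T_ZER := Pool.Agent.H41.CST.pf_ZER Pool.Agent.H17.CST.pf_VDM hZE1
  have hCOR : T_COR := Pool.Agent.H12.CST.pf_COR hFIL hRED hCNV hPIG hHEN hLIN hNVR hZER
    Pool.Agent.H64.CST.pf_CNT
  exact Pool.Agent.H57.CST.pf_FIN hFIL hRED hCNV hPIG hCOR

theorem c_ULT : T_ULT := Pool.Agent.H17.CST.pf_ULT c_FIN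

theorem c_LFT : T_LFT := Pool.Agent.H57.CST.pf_LFT

theorem c8_large_all (D : ℕ) (hD : 4 ≤ D) : ∃ N : ℕ, ∀ (F : Type) [Field F] [Finite F],
    N ≤ Nat.card F → (∀ m : ℕ, 1 ≤ m → m ≤ D → (m : F) ≠ 0) →
    ∀ f : Fin 3 → MvPolynomial (Fin 2) F, (∀ i j, (f i).degreeOf j ≤ D) →
      (SimpleGraph.cycleGraph 8).IsContained (Gam f) :=
  c8_large c_ULT c_LFT D hD

end Pool.Agent.H51.CST
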