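import Mathlib

/-!
# Points on plane curves over finite fields: definitions
-/

open Polynomial

namespace Pool.Agent.H51.CST

noncomputable section

/-- the span of the monomials `x ^ i * y ^ j * z ^ l` of weight `i + e j + e l` at most `n` -/
def Fil (k : Type) [Field k] {S : Type} [CommRing S] [Algebra k S] (x y z : S) (e n : ℕ) :
    Submodule k S :=
  Submodule.span k {v | ∃ i j l : ℕ, i + e * j + e * l ≤ n ∧ v = x ^ i * y ^ j * z ^ l}

/-- a plane curve, monic in the second variable, with coordinate ring a domain -/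
structure Dat (k : Type) [Field k] (d e : ℕ) where
  /-- the equation -/
  mu : k[X][X]
  monic : mu.Monic
  deg : mu.natDegree = d
  bd : ∀ j, (mu.coeff j).natDegree ≤ e
  dom : IsDomain (AdjoinRoot mu)

/-- the first coordinate function -/
def xR {k : Type} [Field k] (mu : k[X][X]) : AdjoinRoot mu := AdjoinRoot.of mu X

/-- the second coordinate function -/
def yR {k : Type} [Field k] (mu : k[X][X]) : AdjoinRoot mu := AdjoinRoot.root mu

/-- the filtration of the coordinate ring -/
def F1 {k : Type} [Field k] (mu : k[X][X]) (e n : ℕ) : Submodule k (AdjoinRoot mu) :=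
  Fil k (xR mu) (yR mu) 1 e n

/-- the coordinates with respect to the powers of the second coordinate function -/
def crd {k : Type} [Field k] {mu : k[X][X]} (h : mu.Monic) (v : AdjoinRoot mu) (j : ℕ) : k[X] :=
  (AdjoinRoot.modByMonicHom h v).coeff j

/-- the equation of the second root -/
def mu2 {k : Type} [Field k] (mu : k[X][X]) : (AdjoinRoot mu)[X] :=
  (mu.map (AdjoinRoot.of mu)) /ₘ (X - C (AdjoinRoot.root mu))

/-- the coordinate ring of the curve of pairs of points with the same first coordinate -/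
abbrev R2 {k : Type} [Field k] (mu : k[X][X]) : Type := AdjoinRoot (mu2 mu)

def x2 {k : Type} [Field k] (mu : k[X][X]) : R2 mu := AdjoinRoot.of (mu2 mu) (xR mu)
def y2 {k : Type} [Field k] (mu : k[X][X]) : R2 mu := AdjoinRoot.of (mu2 mu) (yR mu)
def z2 {k : Type} [Field k] (mu : k[X][X]) : R2 mu := AdjoinRoot.root (mu2 mu)

/-- the filtration of the ring of pairs -/
def F2 {k : Type} [Field k] (mu : k[X][X]) (e n : ℕ) : Submodule k (R2 mu) :=
  Fil k (x2 mu) (y2 mu) (z2 mu) e n

/-- the scaled translation `X ↦ x + (Δ x) ^ 2 T` -/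
def Sh {k : Type} [Field k] (mu : k[X][X]) (Del : k[X]) : k[X] →ₐ[k] (AdjoinRoot mu)[X] :=
  aeval (C (xR mu) + C (aeval (xR mu) Del ^ 2) * X)

/-- the expansion of the auxiliary function along the diagonal -/
def Psi {k : Type} [Field k] (mu : k[X][X]) (Del : k[X]) (r : (AdjoinRoot mu)[X]) {A d B : ℕ}
    (a : Fin A × Fin d × Fin B × Fin d → k) : (R2 mu)[X] :=
  ∑ s, C (algebraMap k (R2 mu) (a s)) *
    (C (x2 mu) + C (aeval (x2 mu) Del ^ 2) * X) ^ (s.1 : ℕ) *
    (r.map (AdjoinRoot.of (mu2 mu))) ^ (s.2.1 : ℕ) *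
    C (x2 mu ^ (s.2.2.1 : ℕ) * z2 mu ^ (s.2.2.2 : ℕ))

/-- the auxiliary function -/
def Phi {k : Type} [Field k] (q : ℕ) {A d B : ℕ} (a : Fin A × Fin d × Fin B × Fin d → k) :
    k[X][X] :=
  ∑ s, C (C (a s) * X ^ ((s.1 : ℕ) + q * (s.2.2.1 : ℕ))) * X ^ ((s.2.1 : ℕ) + q * (s.2.2.2 : ℕ))

/-- the constant of the pigeonhole lemma -/
def pig (a e d : ℕ) : ℕ := d * (a + 2 * e * d + 2)

/-- the polynomial in the second variable obtained by fixing the first one -/
def at0 {k : Type} [Field k] (G : k[X][X]) (x0 : k) : k[X] := G.map (evalRingHom x0)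

end

end Pool.Agent.H51.CST
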