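import Pool.Agent.H51.CST.Sol

/-!
# All large finite fields
-/

open Polynomial Pool.Agent.H51.ADG

namespace Pool.Agent.H51.CST

/-- a maximal ideal of a product of fields which contains the finitely supported sequences -/
theorem exists_ultra2 {ι : Type} [Infinite ι] (F : ι → Type) [∀ i, Field (F i)] :
    ∃ M : Ideal (∀ i, F i), M.IsMaximal ∧ (∀ x : ∀ i, F i, {i | x i ≠ 0}.Finite → x ∈ M) ∧
      ∀ T : Finset (∀ i, F i), (∀ x ∈ T, x ∈ M) → {i | ∀ x ∈ T, x i = 0}.Infinite := by
  classical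
  let I : Ideal (∀ i, F i) :=
    { carrier := {x | {i | x i ≠ 0}.Finite}
      add_mem' := by
        intro x y hx hy
        refine (hx.union hy).subset fun i hi => ?_
        by_contra h
        rw [Set.mem_union, not_or] at h
        apply hi
        have h1 : x i = 0 := by
          by_contra h2
          exact h.1 h2
        have h2 : y i = 0 := by
          by_contra h2
          exact h.2 h2
        rw [Pi.add_apply, h1, h2, add_zero]
      zero_mem' := by
        simp
      smul_mem' := by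
        intro c x hx
        refine hx.subset fun i hi => ?_
        intro h
        apply hi
        rw [Pi.smul_apply', smul_eq_mul, h, mul_zero] }
  have hI : I ≠ ⊤ := by
    intro h
    have h1 : (1 : ∀ i, F i) ∈ I := by
      rw [h]
      trivial
    have h2 : {i | (1 : ∀ i, F i) i ≠ 0}.Finite := h1
    have h3 : {i | (1 : ∀ i, F i) i ≠ 0} = Set.univ := by
      ext i
      simp
    rw [h3] at h2
    exact Set.infinite_univ h2
  obtain ⟨M, hM, hIM⟩ := Ideal.exists_le_maximal I hI
  refine ⟨M, hM, fun x hx => hIM hx, fun T hT hfin => ?_⟩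
  set Z : Set ι := {i | ∀ x ∈ T, x i = 0} with hZ
  have hc : ∀ i, ∃ x, i ∉ Z → x ∈ T ∧ x i ≠ 0 := by
    intro i
    by_cases hi : i ∈ Z
    · exact ⟨0, fun h => absurd hi h⟩
    · have h1 : ¬ ∀ x ∈ T, x i = 0 := hi
      push Not at h1
      obtain ⟨x, hx, hxi⟩ := h1
      exact ⟨x, fun _ => ⟨hx, hxi⟩⟩
  choose c hc using hc
  set r : (∀ i, F i) → (∀ i, F i) := fun x i => if i ∉ Z ∧ c i = x then (x i)⁻¹ else 0 with hr
  set y : ∀ i, F i := ∑ x ∈ T, x * r x with hy
  have hyM : y ∈ M := Ideal.sum_mem _ fun x hx => Ideal.mul_mem_right _ _ (hT x hx)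
  set z : ∀ i, F i := fun i => if i ∈ Z then 1 else 0 with hz
  have hzM : z ∈ M := by
    apply hIM
    refine hfin.subset fun i hi => ?_
    by_contra h
    apply hi
    rw [hz]
    exact if_neg h
  have hyz : y + z = 1 := by
    funext i
    rw [Pi.add_apply, hy, Finset.sum_apply, hz, Pi.one_apply]
    simp only [Pi.mul_apply, hr]
    by_cases hi : i ∈ Z
    · rw [if_pos hi, Finset.sum_eq_zero, zero_add]
      intro x _
      rw [if_neg (fun h => h.1 hi), mul_zero]
    · rw [if_neg hi, add_zero, Finset.sum_eq_single (c i)]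
      · rw [if_pos ⟨hi, rfl⟩]
        exact mul_inv_cancel₀ (hc i hi).2
      · intro x _ hx
        rw [if_neg (fun h => hx h.2.symm), mul_zero]
      · intro h
        exact absurd (hc i hi).1 h
  apply hM.ne_top
  rw [Ideal.eq_top_iff_one, ← hyz]
  exact add_mem hyM hzM

/-- a counterexample with at least `n` elements -/
structure Bad2 (D n : ℕ) : Type 1 where
  F : Type
  fF : Field F
  hF : Finite F
  hcard : n ≤ Nat.card F
  hchar : ∀ m : ℕ, 1 ≤ m → m ≤ D → (m : F) ≠ 0
  f : Fin 3 → MvPolynomial (Fin 2) F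
  hf : ∀ i j, (f i).degreeOf j ≤ D
  hbad : ¬ (SimpleGraph.cycleGraph 8).IsContained (Gam f)

instance {D n : ℕ} (B : Bad2 D n) : Field B.F := B.fF
instance {D n : ℕ} (B : Bad2 D n) : Finite B.F := B.hF

/-- the eight-cycle over all large finite fields -/
theorem c8_large (hULT : T_ULT) (hLFT : T_LFT) (D : ℕ) (hD : 4 ≤ D) :
    ∃ N : ℕ, ∀ (F : Type) [Field F] [Finite F], N ≤ Nat.card F →
    (∀ m : ℕ, 1 ≤ m → m ≤ D → (m : F) ≠ 0) → ∀ f : Fin 3 → MvPolynomial (Fin 2) F,
    (∀ i j, (f i).degreeOf j ≤ D) → (SimpleGraph.cycleGraph 8).IsContained (Gam f) := by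
  classical
  by_contra hcon
  have hB : ∀ k : ℕ, Nonempty (Bad2 D k) := by
    intro k
    by_contra hne
    apply hcon
    refine ⟨k, ?_⟩
    intro F _ _ hcard hchar f hf
    by_contra hbad
    exact hne ⟨⟨F, inferInstance, inferInstance, hcard, hchar, f, hf, hbad⟩⟩
  obtain ⟨B⟩ : Nonempty (∀ k : ℕ, Bad2 D k) := ⟨fun k => (hB k).some⟩
  obtain ⟨M, hM, hMfin, hMT⟩ := exists_ultra2 (fun k => (B k).F)
  have hmapid : ∀ k, (fun i => MvPolynomial.map (RingHom.id (B k).F) ((B k).f i)) = (B k).f := by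
    intro k
    funext i
    exact MvPolynomial.map_id ((B k).f i)
  let _ : Field ((∀ k, (B k).F) ⧸ M) := Ideal.Quotient.field M
  have hQ : LiftQ ((∀ k, (B k).F) ⧸ M) ((∀ k, (B k).F) ⧸ M) :=
    liftQ_of_liftP _ (hLFT _ (hULT (fun k => (B k).F) M (fun k => (B k).hcard) hMfin))
  set mk := Ideal.Quotient.mk M with hmk
  set U : Fin 3 → ℕ → ∀ k, (B k).F := fun i n k => uc D ((B k).f i) n with hU
  by_cases hpure : ∀ i, ∀ n ∈ Smix D, U i n ∈ M
  · have hinf := hMT ((Finset.univ ×ˢ Smix D).image fun x : Fin 3 × ℕ => U x.1 x.2) (by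
      intro y hy
      obtain ⟨⟨i, n⟩, hin, rfl⟩ := Finset.mem_image.1 hy
      exact hpure i n (Finset.mem_product.1 hin).2)
    obtain ⟨k, hk⟩ := hinf.nonempty
    apply (B k).hbad
    rw [← hmapid k]
    refine c8_of_pure D (B k).f (B k).hf _ one_ne_zero ?_ ?_ (fun i n hn => ?_)
    · exact_mod_cast (B k).hchar 2 (by omega) (by omega)
    · exact_mod_cast (B k).hchar 3 (by omega) (by omega)
    · have h1 : U i n k = 0 := hk _ (Finset.mem_image.2
        ⟨(i, n), Finset.mem_product.2 ⟨Finset.mem_univ i, hn⟩, rfl⟩)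
      have h2 : uc D ((B k).f i) n = 0 := h1
      rw [h2, map_zero]
  · push Not at hpure
    obtain ⟨i0, n0, hn0, hi0⟩ := hpure
    obtain ⟨a, b, ha, hb, hclo, hsq⟩ := solQ (k := (∀ k, (B k).F) ⧸ M)
      (K := (∀ k, (B k).F) ⧸ M) D hD hQ
      (by
        intro m h1 h2 h3
        have h4 : mk ((m : ℕ) : ∀ k, (B k).F) = 0 := by
          rw [map_natCast]
          exact h3
        have h5 : ((m : ℕ) : ∀ k, (B k).F) ∈ M := Ideal.Quotient.eq_zero_iff_mem.1 h4
        apply hM.ne_top
        rw [Ideal.eq_top_iff_one]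
        have h6 : (1 : ∀ k, (B k).F) = ((m : ℕ) : ∀ k, (B k).F) *
            (fun k => ((m : ℕ) : (B k).F)⁻¹) := by
          funext k
          rw [Pi.mul_apply, Pi.natCast_apply, Pi.one_apply,
            mul_inv_cancel₀ ((B k).hchar m h1 h2)]
        rw [h6]
        exact Ideal.mul_mem_right _ _ h5)
      (fun i n => mk (U i n))
      (fun i m hm => by
        have h1 : U i m = 0 := by
          funext k
          change uc D ((B k).f i) m = 0
          rw [uc, if_neg hm]
        rw [h1, map_zero])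
    have hHH : HH D (fun n => mk (U i0 n)) a b ≠ 0 := by
      rw [HH]
      refine mul_ne_zero (mul_ne_zero ?_ ?_) ?_
      · exact Finset.prod_ne_zero_iff.2 fun j _ => sub_ne_zero.2 (ha j)
      · exact Finset.prod_ne_zero_iff.2 fun j _ => sub_ne_zero.2 (hb j)
      · exact Finset.prod_ne_zero_iff.2 fun j _ => Finset.prod_ne_zero_iff.2 fun j' _ =>
          hsq i0 ⟨n0, fun h => hi0 (Ideal.Quotient.eq_zero_iff_mem.1 h)⟩ j j'
    have hsurj : Function.Surjective mk := Ideal.Quotient.mk_surjective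
    choose Pa hPa using fun j => hsurj (a j)
    choose Pb hPb using fun j => hsurj (b j)
    obtain ⟨Pc, hPc⟩ := hsurj (HH D (fun n => mk (U i0 n)) a b)⁻¹
    have hclo' : ∀ i, Clo D (U i) Pa Pb ∈ M := by
      intro i
      rw [← Ideal.Quotient.eq_zero_iff_mem]
      have h1 := map_Clo mk D (U i) Pa Pb
      simp only [hPa, hPb] at h1
      rw [h1]
      exact hclo i
    have hHH' : Pc * HH D (U i0) Pa Pb - 1 ∈ M := by
      rw [← Ideal.Quotient.eq_zero_iff_mem, map_sub, map_mul, map_one]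
      have h1 := map_HH mk D (U i0) Pa Pb
      simp only [hPa, hPb] at h1
      rw [h1, hPc, inv_mul_cancel₀ hHH, sub_self]
    obtain ⟨k, hk⟩ := (hMT (insert (Pc * HH D (U i0) Pa Pb - 1)
      (Finset.univ.image fun i => Clo D (U i) Pa Pb)) (by
        intro y hy
        rcases Finset.mem_insert.1 hy with rfl | hy
        · exact hHH'
        · obtain ⟨i, -, rfl⟩ := Finset.mem_image.1 hy
          exact hclo' i)).nonempty
    set π : (∀ k, (B k).F) →+* (B k).F := Pi.evalRingHom (fun k => (B k).F) k with hπ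
    apply (B k).hbad
    rw [← hmapid k]
    refine c8_of_HH D (B k).f (B k).hf (RingHom.id (B k).F) (fun j => π (Pa j))
      (fun j => π (Pb j)) (fun i => ?_) i0 ?_
    · have h1 := map_Clo π D (U i) Pa Pb
      have h2 : π (Clo D (U i) Pa Pb) = 0 :=
        hk _ (Finset.mem_insert_of_mem (Finset.mem_image.2 ⟨i, Finset.mem_univ i, rfl⟩))
      rw [h2] at h1
      exact h1.symm
    · have h1 := map_HH π D (U i0) Pa Pb
      have h2 : π (Pc * HH D (U i0) Pa Pb - 1) = 0 := hk _ (Finset.mem_insert_self _ _)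
      rw [map_sub, map_mul, map_one] at h2
      intro h3
      have h4 : π (HH D (U i0) Pa Pb) = 0 := by
        rw [h1]
        exact h3
      rw [h4, mul_zero, zero_sub, neg_eq_zero] at h2
      exact one_ne_zero h2

end Pool.Agent.H51.CST
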