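import Pool.Agent.H51.ADG.Prim
import Pool.Agent.H51.CST.Targets

/-!
# Closed walks of length eight over fields with the lifting property
-/

open MvPolynomial Pool.Agent.H51.ADG

namespace Pool.Agent.H51.CST

/-- the lifting property -/
def LiftQ (k K : Type) [Field k] [Field K] [Algebra k K] : Prop :=
  ∀ {σ : Type} [Fintype σ] {n : ℕ} (E G : Fin n → MvPolynomial (Option σ) k) (e : Fin n → ℕ),
    (∀ i, E i = X none ^ e i * G i) → ∀ (z0 : σ → k) (s : Fin n → σ),
    (∀ i, eval (pt 0 z0) (G i) = 0) →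
    (Matrix.of fun i j => eval (pt 0 z0) (pderiv (some (s j)) (G i))).det ≠ 0 →
    ∀ (H : MvPolynomial (Option σ) k), eval (pt 0 z0) H ≠ 0 →
    ∃ (ε : K) (z : σ → K), ε ≠ 0 ∧ (∀ i, aeval (pt ε z) (E i) = 0) ∧ aeval (pt ε z) H ≠ 0

theorem liftQ_algClosed (k K : Type) [Field k] [Field K] [Algebra k K] [IsAlgClosed K] :
    LiftQ k K := fun E G e hE z0 s h0 hdet H hH => lift_zero E G e hE z0 s h0 hdet H hH

theorem liftQ_of_liftP (k : Type) [Field k] (hL : LiftP k) : LiftQ k k := by
  intro σ _ n E G e hE z0 s h0 hdet H hH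
  obtain ⟨ε, z, hε, hz, hHz⟩ := hL σ n G z0 s h0 hdet H hH
  refine ⟨ε, z, hε, fun i => ?_, ?_⟩
  · rw [hE i, map_mul]
    have h1 : aeval (pt ε z) (G i) = 0 := by
      have := hz i
      rwa [← coe_aeval_eq_eval] at this
    rw [h1, mul_zero]
  · have := hHz
    rwa [← coe_aeval_eq_eval] at this

/-- the lifting lemma for combinations of moments -/
theorem fin_coreQ {k K : Type} [Field k] [Field K] [Algebra k K]
    (hQ : LiftQ k K)
    (F Q : Fin 3 → Pk k) (n : Fin 3 → ℕ) (c : Fin 3 → Fin 6 → k)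
    (hF : ∀ i, F i = X none ^ n i * (Lc (c i) + X none * Q i)) (a b : Fin 4 → k) (s : Fin 3 → Sg)
    (hz : ∀ i, Lv a b (c i) = 0)
    (hdet : (Matrix.of fun i j => dLv a b (c i) (s j)).det ≠ 0)
    (H : Pk k) (hH : eval (pt 0 (Sum.elim a b)) H ≠ 0) :
    ∃ (ε : K) (z : Sg → K), ε ≠ 0 ∧ (∀ i, aeval (pt ε z) (F i) = 0) ∧ aeval (pt ε z) H ≠ 0 := by
  refine hQ F (fun i => Lc (c i) + X none * Q i) n hF (Sum.elim a b) s
    (fun i => by rw [eval_Lc, hz i]) ?_ H hH
  have h : (Matrix.of fun i j => eval (pt 0 (Sum.elim a b)) (pderiv (some (s j))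
      (Lc (c i) + X none * Q i))) = (Matrix.of fun i j => dLv a b (c i) (s j)) := by
    ext i j
    simp only [Matrix.of_apply]
    exact eval_dLc a b (c i) (Q i) (s j)
  rw [h]
  exact hdet

/-- the main lifting step: a common zero of three scaled closures -/
theorem sol_coreQ {k K : Type} [Field k] [Field K] [Algebra k K]
    (hQ : LiftQ k K)
    (h2 : (2 : k) ≠ 0) (h3 : (3 : k) ≠ 0) (E : Fin 3 → Pk k) (ka la : Fin 3 → k)
    (hdist : ∀ i j, i ≠ j → ¬ (ka i = ka j ∧ la i = la j))
    (hE : ∀ i, ∃ r : Pk k, E i = X none ^ 2 * Mo (va k) (vb k) 1 1 +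
      X none ^ 3 * (C ((ka i - 1) / 2) * Mo (va k) (vb k) 2 1 +
        C ((la i - 1) / 2) * Mo (va k) (vb k) 1 2) +
      X none ^ 4 * (C ((ka i - 1) * (ka i - 2) / 6) * Mo (va k) (vb k) 3 1 +
        C ((ka i - 1) * (la i - 1) / 4) * Mo (va k) (vb k) 2 2 +
        C ((la i - 1) * (la i - 2) / 6) * Mo (va k) (vb k) 1 3) + X none ^ 5 * r)
    (H : Pk k) (hH : ∀ a b : Fin 4 → k, (∀ j : Fin 4, a j ≠ a (j + 1)) →
      (∀ j : Fin 4, b j ≠ b (j + 1)) → eval (pt 0 (Sum.elim a b)) H ≠ 0) :
    ∃ (ε : K) (z : Sg → K), ε ≠ 0 ∧ (∀ i, aeval (pt ε z) (E i) = 0) ∧ aeval (pt ε z) H ≠ 0 := by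
  choose R hR using hE
  set W : Fin 3 → Pk k := fun i => C ((ka i - 1) / 2) * Mo (va k) (vb k) 2 1 +
    C ((la i - 1) / 2) * Mo (va k) (vb k) 1 2 with hW
  set V : Fin 3 → Pk k := fun i => C ((ka i - 1) * (ka i - 2) / 6) * Mo (va k) (vb k) 3 1 +
    C ((ka i - 1) * (la i - 1) / 4) * Mo (va k) (vb k) 2 2 +
    C ((la i - 1) * (la i - 2) / 6) * Mo (va k) (vb k) 1 3 with hV
  have hE' : ∀ i, E i = X none ^ 2 * Mo (va k) (vb k) 1 1 + X none ^ 3 * W i +
    X none ^ 4 * V i + X none ^ 5 * R i := hR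
  have h6 : (6 : k) ≠ 0 := by
    have : (6 : k) = 2 * 3 := by norm_num
    rw [this]
    exact mul_ne_zero h2 h3
  have h4 : (4 : k) ≠ 0 := by
    have : (4 : k) = 2 * 2 := by norm_num
    rw [this]
    exact mul_ne_zero h2 h2
  have hne : ∀ x : k, x ≠ 0 → (∀ j : Fin 4, ax x j ≠ ax x (j + 1)) ∧
      (∀ j : Fin 4, bx x j ≠ bx x (j + 1)) := by
    intro x hx
    constructor
    · intro j h
      fin_cases j
      · have : (2 : k) * x = 0 := by
          simp [ax] at h
          linear_combination h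
        exact mul_ne_zero h2 hx this
      · have : (4 : k) * x = 0 := by
          simp [ax] at h
          linear_combination h
        exact mul_ne_zero h4 hx this
      · have : (2 : k) * x = 0 := by
          simp [ax] at h
          linear_combination h
        exact mul_ne_zero h2 hx this
      · have : (4 : k) * x = 0 := by
          simp [ax] at h
          linear_combination -h
        exact mul_ne_zero h4 hx this
    · intro j h
      fin_cases j
      · have : (3 : k) * x = 0 := by
          simp [bx] at h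
          linear_combination -h
        exact mul_ne_zero h3 hx this
      · have : (1 : k) * x = 0 := by
          simp [bx] at h
          linear_combination -h
        exact mul_ne_zero one_ne_zero hx this
      · have : (3 : k) * x = 0 := by
          simp [bx] at h
          linear_combination h
        exact mul_ne_zero h3 hx this
      · have : (1 : k) * x = 0 := by
          simp [bx] at h
          linear_combination -h
        exact mul_ne_zero one_ne_zero hx this
  have hu1 : ∀ j : Fin 4, (![0, 1, 3, 2] : Fin 4 → k) j ≠ (![0, 1, 3, 2] : Fin 4 → k) (j + 1) := by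
    intro j h
    fin_cases j
    · simp at h
    · have : (2 : k) = 0 := by
        simp at h
        linear_combination -h
      exact h2 this
    · have : (1 : k) = 0 := by
        simp at h
        linear_combination h
      exact one_ne_zero this
    · have : (2 : k) = 0 := by
        simp at h
        linear_combination h
      exact h2 this
  have hu2 : ∀ j : Fin 4, (![1, 0, 1, 0] : Fin 4 → k) j ≠ (![1, 0, 1, 0] : Fin 4 → k) (j + 1) := by
    intro j h
    fin_cases j <;> simp at h
  by_cases hcol : (ka 1 - ka 0) * (la 2 - la 0) - (ka 2 - ka 0) * (la 1 - la 0) = 0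
  · -- collinear
    set p := ka 1 - ka 0 with hp
    set q := la 1 - la 0 with hq
    obtain ⟨t, ht1, ht2⟩ : ∃ t : k, ka 2 - ka 0 = t * p ∧ la 2 - la 0 = t * q := by
      by_cases hp0 : p = 0
      · have hq0 : q ≠ 0 := by
          intro hq0
          exact hdist 1 0 (by decide) ⟨sub_eq_zero.1 hp0, sub_eq_zero.1 hq0⟩
        refine ⟨(la 2 - la 0) / q, ?_, (div_mul_cancel₀ _ hq0).symm⟩
        rw [hp0, zero_mul, zero_sub, neg_eq_zero] at hcol
        rcases mul_eq_zero.1 hcol with h | h
        · rw [h, hp0, mul_zero]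
        · exact absurd h hq0
      · refine ⟨(ka 2 - ka 0) / p, (div_mul_cancel₀ _ hp0).symm, ?_⟩
        field_simp
        linear_combination hcol
    have ht0 : t ≠ 0 := by
      intro h
      rw [h, zero_mul] at ht1 ht2
      exact hdist 2 0 (by decide) ⟨sub_eq_zero.1 ht1, sub_eq_zero.1 ht2⟩
    have ht3 : t - 1 ≠ 0 := by
      intro h
      have ht : t = 1 := sub_eq_zero.1 h
      rw [ht, one_mul] at ht1 ht2
      exact hdist 2 1 (by decide) ⟨sub_left_injective ht1, sub_left_injective ht2⟩
    have hk1 : ka 1 = ka 0 + p := by rw [hp]; ring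
    have hl1 : la 1 = la 0 + q := by rw [hq]; ring
    have hk2 : ka 2 = ka 0 + t * p := by linear_combination ht1
    have hl2 : la 2 = la 0 + t * q := by linear_combination ht2
    set cc : Fin 3 → Fin 6 → k := ![![1, 0, 0, 0, 0, 0], ![0, p / 2, q / 2, 0, 0, 0],
      ![0, 0, 0, t * (t - 1) * (p ^ 2 / 6), t * (t - 1) * (p * q / 4),
        t * (t - 1) * (q ^ 2 / 6)]] with hcc
    have hmain : ∀ (a b : Fin 4 → k) (s : Fin 3 → Sg), (∀ j : Fin 4, a j ≠ a (j + 1)) →
        (∀ j : Fin 4, b j ≠ b (j + 1)) → (∀ i, Lv a b (cc i) = 0) →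
        (Matrix.of fun i j => dLv a b (cc i) (s j)).det ≠ 0 →
        ∃ (ε : K) (z : Sg → K), ε ≠ 0 ∧ (∀ i, aeval (pt ε z) (E i) = 0) ∧
          aeval (pt ε z) H ≠ 0 := by
      intro a b s ha hb hz hdet
      obtain ⟨ε, z, hε, hz, hHz⟩ := fin_coreQ (K := K) hQ
        ![E 0, E 1 - E 0, E 2 - E 0 - C t * (E 1 - E 0)]
        ![W 0 + X none * V 0 + X none ^ 2 * R 0,
          (V 1 - V 0) + X none * (R 1 - R 0),
          R 2 - R 0 - C t * (R 1 - R 0)] ![2, 3, 4] cc (by
          intro i
          fin_cases i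
          · simp only [Fin.zero_eta, Matrix.cons_val_zero, hcc]
            rw [hE' 0, Lc]
            simp
            ring
          · simp only [Fin.mk_one, Matrix.cons_val_one, Matrix.cons_val_zero, hcc]
            have h1 : Lc ![0, p / 2, q / 2, 0, 0, 0] = W 1 - W 0 := by
              simp only [Lc, hW, Matrix.cons_val, map_zero, hk1, hl1]
              have h5 : (C ((ka 0 + p - 1) / 2) : Pk k) = C (p / 2) + C ((ka 0 - 1) / 2) := by
                rw [← map_add]
                congr 1
                ring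
              have h7 : (C ((la 0 + q - 1) / 2) : Pk k) = C (q / 2) + C ((la 0 - 1) / 2) := by
                rw [← map_add]
                congr 1
                ring
              rw [h5, h7]
              ring
            rw [h1, hE' 0, hE' 1]
            ring
          · simp only [Fin.reduceFinMk, Matrix.cons_val, hcc]
            have h1 : W 2 - W 0 - C t * (W 1 - W 0) = 0 := by
              simp only [hW, hk1, hl1, hk2, hl2]
              have h5 : (C ((ka 0 + p - 1) / 2) : Pk k) = C (p / 2) + C ((ka 0 - 1) / 2) := by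
                rw [← map_add]
                congr 1
                ring
              have h7 : (C ((la 0 + q - 1) / 2) : Pk k) = C (q / 2) + C ((la 0 - 1) / 2) := by
                rw [← map_add]
                congr 1
                ring
              have h8 : (C ((ka 0 + t * p - 1) / 2) : Pk k) =
                  C t * C (p / 2) + C ((ka 0 - 1) / 2) := by
                rw [← map_mul, ← map_add]
                congr 1
                ring
              have h9 : (C ((la 0 + t * q - 1) / 2) : Pk k) =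
                  C t * C (q / 2) + C ((la 0 - 1) / 2) := by
                rw [← map_mul, ← map_add]
                congr 1
                ring
              rw [h5, h7, h8, h9]
              ring
            have h1' : Lc ![0, 0, 0, t * (t - 1) * (p ^ 2 / 6), t * (t - 1) * (p * q / 4),
                t * (t - 1) * (q ^ 2 / 6)] = V 2 - V 0 - C t * (V 1 - V 0) := by
              have h5 : t * (t - 1) * (p ^ 2 / 6) = (ka 2 - 1) * (ka 2 - 2) / 6 -
                  (ka 0 - 1) * (ka 0 - 2) / 6 - t * ((ka 1 - 1) * (ka 1 - 2) / 6 -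
                  (ka 0 - 1) * (ka 0 - 2) / 6) := by
                rw [hk1, hk2]
                ring
              have h7 : t * (t - 1) * (p * q / 4) = (ka 2 - 1) * (la 2 - 1) / 4 -
                  (ka 0 - 1) * (la 0 - 1) / 4 - t * ((ka 1 - 1) * (la 1 - 1) / 4 -
                  (ka 0 - 1) * (la 0 - 1) / 4) := by
                rw [hk1, hk2, hl1, hl2]
                ring
              have h8 : t * (t - 1) * (q ^ 2 / 6) = (la 2 - 1) * (la 2 - 2) / 6 -
                  (la 0 - 1) * (la 0 - 2) / 6 - t * ((la 1 - 1) * (la 1 - 2) / 6 -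
                  (la 0 - 1) * (la 0 - 2) / 6) := by
                rw [hl1, hl2]
                ring
              rw [h5, h7, h8]
              simp only [Lc, hV, Matrix.cons_val, map_zero, map_sub, map_mul C t]
              ring
            rw [h1', hE' 0, hE' 1, hE' 2]
            linear_combination (X none ^ 3) * h1)
        a b s hz hdet H (hH a b ha hb)
      refine ⟨ε, z, hε, fun i => ?_, hHz⟩
      have hz0 := hz 0
      have hz1 := hz 1
      have hz2 := hz 2
      simp only [Matrix.cons_val_zero, Matrix.cons_val_one, Matrix.cons_val, map_sub,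
        map_mul] at hz0 hz1 hz2
      rw [hz0, sub_zero] at hz1
      rw [hz0, hz1] at hz2
      simp at hz2
      fin_cases i
      · exact hz0
      · exact hz1
      · exact hz2
    by_cases hp0 : p = 0
    · -- vertical line
      have hq0 : q ≠ 0 := by
        intro hq0
        exact hdist 1 0 (by decide) ⟨sub_eq_zero.1 hp0, sub_eq_zero.1 hq0⟩
      refine hmain ![0, 1, 3, 2] ![1, 0, 1, 0] ![Sum.inl 0, Sum.inr 0, Sum.inr 1] hu1 hu2 ?_ ?_
      · obtain ⟨e1, e2, e3⟩ := Mo_ez (S := k)
        intro i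
        fin_cases i
        · simp [Lv, hcc, e1]
        · simp [Lv, hcc, e2, hp0]
        · simp [Lv, hcc, e3, hp0]
      · obtain ⟨⟨e1, e2, e3⟩, ⟨e4, e5, e6⟩, ⟨e7, e8, e9⟩⟩ := pMo_ez (S := k)
        rw [Matrix.det_fin_three]
        simp only [Matrix.of_apply, Matrix.cons_val, Matrix.cons_val_zero, Matrix.cons_val_one,
          dLv, hcc, hp0, e1, e2, e3, e4, e5, e6, e7, e8, e9]
        have h9 : q / 2 * (t * (t - 1) * (q ^ 2 / 6)) * 2 ≠ 0 :=
          mul_ne_zero (mul_ne_zero (div_ne_zero hq0 h2) (mul_ne_zero (mul_ne_zero ht0 ht3)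
            (div_ne_zero (pow_ne_zero 2 hq0) h6))) h2
        intro h
        apply h9
        rw [← h]
        ring
    · by_cases hq0 : q = 0
      · refine hmain ![1, 0, 1, 0] ![0, 1, 3, 2] ![Sum.inl 0, Sum.inl 1, Sum.inr 0] hu2 hu1 ?_ ?_
        · obtain ⟨e1, e2, e3⟩ := Mo_ey (S := k)
          intro i
          fin_cases i
          · simp [Lv, hcc, e1]
          · simp [Lv, hcc, e2, hq0]
          · simp [Lv, hcc, e3, hq0]
        · obtain ⟨⟨e1, e2, e3⟩, ⟨e4, e5, e6⟩, ⟨e7, e8, e9⟩⟩ := pMo_ey (S := k)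
          rw [Matrix.det_fin_three]
          simp only [Matrix.of_apply, Matrix.cons_val, Matrix.cons_val_zero, Matrix.cons_val_one,
            dLv, hcc, hq0, e1, e2, e3, e4, e5, e6, e7, e8, e9]
          have h9 : p / 2 * (t * (t - 1) * (p ^ 2 / 6)) * 2 ≠ 0 :=
            mul_ne_zero (mul_ne_zero (div_ne_zero hp0 h2) (mul_ne_zero (mul_ne_zero ht0 ht3)
              (div_ne_zero (pow_ne_zero 2 hp0) h6))) h2
          intro h
          apply h9
          rw [← neg_eq_zero, ← h]
          ring
      · refine hmain (ax p⁻¹) (bx q⁻¹) ![Sum.inl 0, Sum.inr 0, Sum.inr 1]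
          (hne _ (inv_ne_zero hp0)).1 (hne _ (inv_ne_zero hq0)).2 ?_ ?_
        · obtain ⟨e1, e2, e3, e4, e5, e6⟩ := Mo_ex p⁻¹ q⁻¹
          intro i
          fin_cases i
          · simp [Lv, hcc, e1]
          · simp [Lv, hcc, e2, e3]
          · simp only [Lv, hcc, e1, e2, e3, e4, e5, e6, Fin.reduceFinMk, Matrix.cons_val]
            field_simp
            ring
        · obtain ⟨⟨e1, e2, e3⟩, ⟨e4, e5, e6⟩, ⟨e7, e8, e9⟩, ⟨e10, e11, e12⟩, ⟨e13, e14, e15⟩,
            ⟨e16, e17, e18⟩⟩ := pMo_ex p⁻¹ q⁻¹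
          rw [Matrix.det_fin_three]
          simp only [Matrix.of_apply, Matrix.cons_val, Matrix.cons_val_zero, Matrix.cons_val_one,
            dLv, hcc, e1, e2, e3, e4, e5, e6, e7, e8, e9, e10, e11, e12, e13, e14, e15, e16, e17,
            e18]
          have h9 : t * (t - 1) * 6 * (p⁻¹ * p⁻¹ * q⁻¹) ≠ 0 := 
            mul_ne_zero (mul_ne_zero (mul_ne_zero ht0 ht3) h6) (mul_ne_zero (mul_ne_zero
              (inv_ne_zero hp0) (inv_ne_zero hp0)) (inv_ne_zero hq0))
          intro h
          apply h9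
          rw [← h]
          field_simp
          ring
  · -- non-collinear
    set x1 := (ka 1 - ka 0) / 2 with hx1
    set y1 := (la 1 - la 0) / 2 with hy1
    set x2 := (ka 2 - ka 0) / 2 with hx2
    set y2 := (la 2 - la 0) / 2 with hy2
    have hxy : x1 * y2 - x2 * y1 ≠ 0 := by
      intro h
      apply hcol
      have h5 : (ka 1 - ka 0) * (la 2 - la 0) - (ka 2 - ka 0) * (la 1 - la 0) =
          4 * (x1 * y2 - x2 * y1) := by
        rw [hx1, hx2, hy1, hy2]
        field_simp
        ring
      rw [h5, h, mul_zero]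
    set cc : Fin 3 → Fin 6 → k := ![![1, 0, 0, 0, 0, 0], ![0, x1, y1, 0, 0, 0],
      ![0, x2, y2, 0, 0, 0]] with hcc
    obtain ⟨ε, z, hε, hz, hHz⟩ := fin_coreQ (K := K) hQ
      ![E 0, E 1 - E 0, E 2 - E 0]
      ![W 0 + X none * V 0 + X none ^ 2 * R 0,
        (V 1 - V 0) + X none * (R 1 - R 0),
        (V 2 - V 0) + X none * (R 2 - R 0)] ![2, 3, 3] cc (by
        intro i
        fin_cases i
        · simp only [Fin.zero_eta, Matrix.cons_val_zero, hcc]
          rw [hE' 0, Lc]
          simp
          ring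
        · simp only [Fin.mk_one, Matrix.cons_val_one, Matrix.cons_val_zero, hcc]
          have h1 : Lc ![0, x1, y1, 0, 0, 0] = W 1 - W 0 := by
            simp only [Lc, hW, Matrix.cons_val, map_zero]
            have h5 : (C ((ka 1 - 1) / 2) : Pk k) = C x1 + C ((ka 0 - 1) / 2) := by
              rw [← map_add]
              congr 1
              rw [hx1]
              ring
            have h7 : (C ((la 1 - 1) / 2) : Pk k) = C y1 + C ((la 0 - 1) / 2) := by
              rw [← map_add]
              congr 1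
              rw [hy1]
              ring
            rw [h5, h7]
            ring
          rw [h1, hE' 0, hE' 1]
          ring
        · simp only [Fin.reduceFinMk, Matrix.cons_val, hcc]
          have h1 : Lc ![0, x2, y2, 0, 0, 0] = W 2 - W 0 := by
            simp only [Lc, hW, Matrix.cons_val, map_zero]
            have h5 : (C ((ka 2 - 1) / 2) : Pk k) = C x2 + C ((ka 0 - 1) / 2) := by
              rw [← map_add]
              congr 1
              rw [hx2]
              ring
            have h7 : (C ((la 2 - 1) / 2) : Pk k) = C y2 + C ((la 0 - 1) / 2) := by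
              rw [← map_add]
              congr 1
              rw [hy2]
              ring
            rw [h5, h7]
            ring
          rw [h1, hE' 0, hE' 2]
          ring)
      (ax 1) (bx 1) ![Sum.inl 0, Sum.inr 0, Sum.inr 1] (by
        obtain ⟨e1, e2, e3, e4, e5, e6⟩ := Mo_ex (1 : k) 1
        intro i
        fin_cases i
        · simp [Lv, hcc, e1]
        · simp [Lv, hcc, e2, e3]
        · simp [Lv, hcc, e2, e3]) (by
        obtain ⟨⟨e1, e2, e3⟩, ⟨e4, e5, e6⟩, ⟨e7, e8, e9⟩, ⟨e10, e11, e12⟩, ⟨e13, e14, e15⟩,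
          ⟨e16, e17, e18⟩⟩ := pMo_ex (1 : k) 1
        rw [Matrix.det_fin_three]
        simp only [Matrix.of_apply, Matrix.cons_val, Matrix.cons_val_zero, Matrix.cons_val_one,
          dLv, hcc, e1, e2, e3, e4, e5, e6, e7, e8, e9, e10, e11, e12, e13, e14, e15, e16, e17,
          e18]
        have h9 : (x1 * y2 - x2 * y1) * (4 * 6 * 6) ≠ 0 :=
          mul_ne_zero hxy (mul_ne_zero (mul_ne_zero h4 h6) h6)
        intro h
        apply h9
        rw [← h]
        ring) H (hH (ax 1) (bx 1) (hne 1 one_ne_zero).1 (hne 1 one_ne_zero).2)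
    refine ⟨ε, z, hε, fun i => ?_, hHz⟩
    have hz0 := hz 0
    have hz1 := hz 1
    have hz2 := hz 2
    simp only [Matrix.cons_val_zero, Matrix.cons_val_one, Matrix.cons_val, map_sub] at hz0 hz1 hz2
    rw [hz0, sub_zero] at hz1 hz2
    fin_cases i
    · exact hz0
    · exact hz1
    · exact hz2

/-- existence of a non-degenerate closed walk of length eight -/
theorem solQ (D : ℕ) (hD : 4 ≤ D) {k K : Type} [Field k] [Field K] [Algebra k K]
    (hQ : LiftQ k K)
    (hchar : ∀ n : ℕ, 1 ≤ n → n ≤ D → (n : k) ≠ 0) (u : Fin 3 → ℕ → k)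
    (hu : ∀ i m, m ∉ Smix D → u i m = 0) :
    ∃ a b : Fin 4 → K, (∀ j, a j ≠ a (j + 1)) ∧ (∀ j, b j ≠ b (j + 1)) ∧
      (∀ i, ∑ m ∈ Smix D, algebraMap k K (u i m) * Mo a b (m / (D + 1)) (m % (D + 1)) = 0) ∧
      ∀ i, (∃ m, u i m ≠ 0) → ∀ j j' : Fin 4, ∑ m ∈ Smix D, algebraMap k K (u i m) *
        ((a j ^ (m / (D + 1)) - a (j + 1) ^ (m / (D + 1))) *
          (b j' ^ (m % (D + 1)) - b (j' + 1) ^ (m % (D + 1)))) ≠ 0 := by
  classical
  have h2 : (2 : k) ≠ 0 := by
    have := hchar 2 (by omega) (by omega)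
    exact_mod_cast this
  have h3 : (3 : k) ≠ 0 := by
    have := hchar 3 (by omega) (by omega)
    exact_mod_cast this
  obtain ⟨m, g, hinj, hmS, hgS, hg1, hg2, hspan⟩ := ech 3 (Smix D) (card_Smix D hD) u hu
  -- the exponents
  set kk : Fin 3 → ℕ := fun i => m i / (D + 1) with hkk
  set ll : Fin 3 → ℕ := fun i => m i % (D + 1) with hll
  have hbd : ∀ i, (1 ≤ kk i ∧ kk i ≤ D) ∧ (1 ≤ ll i ∧ ll i ≤ D) := fun i => Smix_bd (hmS i)
  have hk0 : ∀ i, ((kk i : ℕ) : k) ≠ 0 := fun i => hchar _ (hbd i).1.1 (hbd i).1.2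
  have hl0 : ∀ i, ((ll i : ℕ) : k) ≠ 0 := fun i => hchar _ (hbd i).2.1 (hbd i).2.2
  have hcast : ∀ x y : ℕ, 1 ≤ x → x ≤ D → 1 ≤ y → y ≤ D → (x : k) = (y : k) → x = y := by
    intro x y hx hx' hy hy' hxy
    rcases lt_trichotomy x y with h | h | h
    · exfalso
      apply hchar (y - x) (by omega) (by omega)
      rw [Nat.cast_sub h.le, hxy, sub_self]
    · exact h
    · exfalso
      apply hchar (x - y) (by omega) (by omega)
      rw [Nat.cast_sub h.le, hxy, sub_self]
  -- the scaled closures
  set P : ℕ → Pk k := fun n => Dh (X none) (va k) (vb k) (n / (D + 1)) (n % (D + 1)) with hP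
  set E0 : Fin 3 → Pk k := fun i =>
    ∑ n ∈ Smix D, C (g i n) * (X none ^ (5 * (m i - n)) * P n) with hE0
  set E : Fin 3 → Pk k := fun i => C ((((kk i : ℕ) : k) * ((ll i : ℕ) : k))⁻¹) * E0 i with hE
  -- the squares
  have hsq : ∀ (i : Fin 3) (j j' : Fin 4), ∃ (top : ℕ) (Hs : Pk k),
      (∀ n, top < n → u i n = 0) ∧ (((∃ n, u i n ≠ 0) →
      ∑ n ∈ Smix D, C (u i n) * (X none ^ (5 * (top - n)) *
        (((1 + X none * va k j) ^ (n / (D + 1)) - (1 + X none * va k (j + 1)) ^ (n / (D + 1))) *
        ((1 + X none * vb k j') ^ (n % (D + 1)) - (1 + X none * vb k (j' + 1)) ^ (n % (D + 1)))))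
        = X none ^ 2 * Hs) ∧
      ∀ a b : Fin 4 → k, (∀ j : Fin 4, a j ≠ a (j + 1)) → (∀ j : Fin 4, b j ≠ b (j + 1)) →
        eval (pt 0 (Sum.elim a b)) Hs ≠ 0) := by
    intro i j j'
    by_cases hi : ∃ n, u i n ≠ 0
    · obtain ⟨n1, hn1⟩ := hi
      have hTne : ((Smix D).filter fun n => u i n ≠ 0).Nonempty := by
        refine ⟨n1, Finset.mem_filter.2 ⟨?_, hn1⟩⟩
        by_contra h
        exact hn1 (hu i n1 h)
      obtain ⟨n0, hn0T, hmax⟩ := Finset.exists_max_image _ (fun n : ℕ => n) hTne
      obtain ⟨hn0, hi0⟩ := Finset.mem_filter.1 hn0T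
      have hlarge : ∀ n, n0 < n → u i n = 0 := by
        intro n hn
        by_contra h
        have h1 : n ∈ Smix D := by
          by_contra h2
          exact h (hu i n h2)
        have h2 : n ≤ n0 := hmax n (Finset.mem_filter.2 ⟨h1, h⟩)
        omega
      obtain ⟨r, hr⟩ := lead_sum D (u i) n0 hn0 hlarge (fun n =>
        (((1 + X none * va k j) ^ (n / (D + 1)) - (1 + X none * va k (j + 1)) ^ (n / (D + 1))) *
        ((1 + X none * vb k j') ^ (n % (D + 1)) - (1 + X none * vb k (j' + 1)) ^ (n % (D + 1)))))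
      obtain ⟨r', hr'⟩ := sq_exp (X none : Pk k) (va k j) (va k (j + 1)) (vb k j') (vb k (j' + 1))
        (n0 / (D + 1)) (n0 % (D + 1))
      refine ⟨n0, C (u i n0) * ((((n0 / (D + 1) : ℕ) : Pk k) * ((n0 % (D + 1) : ℕ) : Pk k)) *
        ((va k j - va k (j + 1)) * (vb k j' - vb k (j' + 1)))) +
        X none * (C (u i n0) * r' + X none ^ 2 * r), hlarge, fun _ => ?_, fun a b ha hb => ?_⟩
      · rw [hr, hr']
        ring
      · have hx : eval (pt 0 (Sum.elim a b)) (X none : Pk k) = 0 := by simp [pt]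
        have hb' := Smix_bd hn0
        have e1 : eval (pt 0 (Sum.elim a b)) (((n0 / (D + 1) : ℕ) : Pk k)) =
            ((n0 / (D + 1) : ℕ) : k) := map_natCast _ _
        have e2 : eval (pt 0 (Sum.elim a b)) (((n0 % (D + 1) : ℕ) : Pk k)) =
            ((n0 % (D + 1) : ℕ) : k) := map_natCast _ _
        rw [map_add, map_mul, map_mul (eval _) (X none), hx, zero_mul, add_zero, map_mul, map_mul,
          map_mul, map_sub, map_sub, eval_C, e1, e2]
        simp only [va, vb, eval_X, pt, Option.elim, Sum.elim_inl, Sum.elim_inr]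
        refine mul_ne_zero hi0 (mul_ne_zero (mul_ne_zero ?_ ?_) (mul_ne_zero ?_ ?_))
        · exact hchar _ hb'.1.1 hb'.1.2
        · exact hchar _ hb'.2.1 hb'.2.2
        · exact sub_ne_zero.2 (ha j)
        · exact sub_ne_zero.2 (hb j')
    · refine ⟨0, 1, fun n _ => ?_, fun h => absurd h hi, fun a b _ _ => ?_⟩
      · by_contra h
        exact hi ⟨n, h⟩
      · rw [map_one]
        exact one_ne_zero
  choose top Hs htop hHs hHs0 using hsq
  set H : Pk k := (∏ j : Fin 4, (va k j - va k (j + 1))) * (∏ j : Fin 4, (vb k j - vb k (j + 1))) *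
    ∏ i : Fin 3, ∏ j : Fin 4, ∏ j' : Fin 4, Hs i j j' with hH
  obtain ⟨ε, z, hε, hz, hHz⟩ := sol_coreQ (K := K) hQ h2 h3 E (fun i => ((kk i : ℕ) : k))
    (fun i => ((ll i : ℕ) : k)) (by
      rintro i j hij ⟨h4, h5⟩
      apply hij
      apply hinj
      have e1 := hcast _ _ (hbd i).1.1 (hbd i).1.2 (hbd j).1.1 (hbd j).1.2 h4
      have e2 := hcast _ _ (hbd i).2.1 (hbd i).2.2 (hbd j).2.1 (hbd j).2.2 h5
      have e3 := Nat.div_add_mod (m i) (D + 1)
      have e4 := Nat.div_add_mod (m j) (D + 1)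
      simp only [hkk, hll] at e1 e2
      rw [e1, e2] at e3
      exact e3.symm.trans e4) (by
      intro i
      obtain ⟨r, hr⟩ := lead_sum D (g i) (m i) (hmS i) (hg2 i) P
      obtain ⟨r', hr'⟩ := Dh_exp (X none : Pk k) (va k) (vb k) (kk i) (ll i)
      refine ⟨C ((((kk i : ℕ) : k) * ((ll i : ℕ) : k))⁻¹) * (r' + r), ?_⟩
      have h6 : (6 : k) ≠ 0 := by
        have : (6 : k) = 2 * 3 := by norm_num
        rw [this]
        exact mul_ne_zero h2 h3
      have h4 : (4 : k) ≠ 0 := by
        have : (4 : k) = 2 * 2 := by norm_num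
        rw [this]
        exact mul_ne_zero h2 h2
      have hc2 : ∀ n : ℕ, ((n.choose 2 : ℕ) : k) = (n : k) * ((n : k) - 1) / 2 := by
        intro n
        rw [eq_div_iff h2]
        have e1 : (n.choose 2 : ℕ) * 2 + n = n * n := by
          induction n with
          | zero => rfl
          | succ n ih =>
            rw [Nat.choose_succ_succ' n 1, Nat.choose_one_right]
            nlinarith
        have e2 : ((n.choose 2 : ℕ) : k) * 2 + (n : k) = (n : k) * (n : k) := by
          have e3 := congrArg (Nat.cast : ℕ → k) e1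
          push_cast at e3
          exact e3
        linear_combination e2
      have hc3 : ∀ n : ℕ, ((n.choose 3 : ℕ) : k) = (n : k) * ((n : k) - 1) * ((n : k) - 2) / 6 := by
        intro n
        induction n with
        | zero => simp
        | succ n ih =>
          rw [Nat.choose_succ_succ' n 2, Nat.cast_add, ih, hc2 n]
          push_cast
          field_simp
          ring
      have e0 : ∀ n : ℕ, ((n : ℕ) : Pk k) = C (n : k) := fun n => (map_natCast C n).symm
      have hPm : P (m i) = Dh (X none) (va k) (vb k) (kk i) (ll i) := rfl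
      simp only [hE, hE0]
      rw [hr, hg1 i, C_1, one_mul, hPm, hr']
      have ek : ((kk i : ℕ) : k) ≠ 0 := hk0 i
      have el : ((ll i : ℕ) : k) ≠ 0 := hl0 i
      set κ : k := ((kk i : ℕ) : k) with hκ
      set lam : k := ((ll i : ℕ) : k) with hlam
      have g1 : (C ((κ * lam)⁻¹) : Pk k) * (((kk i : ℕ) : Pk k) * ((ll i : ℕ) : Pk k)) = 1 := by
        rw [e0, e0, ← map_mul, ← map_mul, inv_mul_cancel₀ (mul_ne_zero ek el), map_one]
      have g2 : (C ((κ * lam)⁻¹) : Pk k) * ((((kk i).choose 2 : ℕ) : Pk k) * ((ll i : ℕ) : Pk k)) =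
          C ((κ - 1) / 2) := by
        rw [e0, e0, ← map_mul, ← map_mul, hc2]
        congr 1
        simp only [← hκ, ← hlam]
        field_simp
      have g3 : (C ((κ * lam)⁻¹) : Pk k) * (((kk i : ℕ) : Pk k) * (((ll i).choose 2 : ℕ) : Pk k)) =
          C ((lam - 1) / 2) := by
        rw [e0, e0, ← map_mul, ← map_mul, hc2]
        congr 1
        simp only [← hκ, ← hlam]
        field_simp
      have g4 : (C ((κ * lam)⁻¹) : Pk k) * ((((kk i).choose 3 : ℕ) : Pk k) * ((ll i : ℕ) : Pk k)) =
          C ((κ - 1) * (κ - 2) / 6) := by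
        rw [e0, e0, ← map_mul, ← map_mul, hc3]
        congr 1
        simp only [← hκ, ← hlam]
        field_simp
      have g5 : (C ((κ * lam)⁻¹) : Pk k) * ((((kk i).choose 2 : ℕ) : Pk k) *
          (((ll i).choose 2 : ℕ) : Pk k)) = C ((κ - 1) * (lam - 1) / 4) := by
        rw [e0, e0, ← map_mul, ← map_mul, hc2, hc2]
        congr 1
        simp only [← hκ, ← hlam]
        field_simp
        ring
      have g6 : (C ((κ * lam)⁻¹) : Pk k) * (((kk i : ℕ) : Pk k) * (((ll i).choose 3 : ℕ) : Pk k)) =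
          C ((lam - 1) * (lam - 2) / 6) := by
        rw [e0, e0, ← map_mul, ← map_mul, hc3]
        congr 1
        simp only [← hκ, ← hlam]
        field_simp
      rw [← g2, ← g3, ← g4, ← g5, ← g6]
      linear_combination (X none ^ 2 * Mo (va k) (vb k) 1 1) * g1)
    H (by
      intro a b ha hb
      rw [hH, map_mul, map_mul, map_prod, map_prod, map_prod]
      refine mul_ne_zero (mul_ne_zero ?_ ?_) ?_
      · refine Finset.prod_ne_zero_iff.2 fun j _ => ?_
        rw [map_sub]
        simp only [va, eval_X, pt, Option.elim, Sum.elim_inl]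
        exact sub_ne_zero.2 (ha j)
      · refine Finset.prod_ne_zero_iff.2 fun j _ => ?_
        rw [map_sub]
        simp only [vb, eval_X, pt, Option.elim, Sum.elim_inr]
        exact sub_ne_zero.2 (hb j)
      · refine Finset.prod_ne_zero_iff.2 fun i _ => ?_
        rw [map_prod]
        refine Finset.prod_ne_zero_iff.2 fun j _ => ?_
        rw [map_prod]
        exact Finset.prod_ne_zero_iff.2 fun j' _ => hHs0 i j j' a b ha hb)
  rw [hH, map_mul, map_mul, map_prod, map_prod, map_prod] at hHz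
  obtain ⟨hHz1, hHz3⟩ := mul_ne_zero_iff.1 hHz
  obtain ⟨hHz1, hHz2⟩ := mul_ne_zero_iff.1 hHz1
  set T : K := (ε ^ 5)⁻¹ with hT
  have hT0 : T ≠ 0 := inv_ne_zero (pow_ne_zero 5 hε)
  set α : Fin 4 → K := fun j => z (Sum.inl j) with hα
  set β : Fin 4 → K := fun j => z (Sum.inr j) with hβ
  have hva : ∀ j, aeval (pt ε z) (va k j) = α j := fun j => by
    simp only [va, aeval_X, pt, Option.elim, hα]
  have hvb : ∀ j, aeval (pt ε z) (vb k j) = β j := fun j => by
    simp only [vb, aeval_X, pt, Option.elim, hβ]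
  have hxe : aeval (pt ε z) (X none : Pk k) = ε := by
    simp only [aeval_X, pt, Option.elim]
  have hαne : ∀ j, α j ≠ α (j + 1) := by
    intro j h
    have h1 := Finset.prod_ne_zero_iff.1 hHz1 j (Finset.mem_univ j)
    rw [map_sub, hva, hva, h, sub_self] at h1
    exact h1 rfl
  have hβne : ∀ j, β j ≠ β (j + 1) := by
    intro j h
    have h1 := Finset.prod_ne_zero_iff.1 hHz2 j (Finset.mem_univ j)
    rw [map_sub, hvb, hvb, h, sub_self] at h1
    exact h1 rfl
  set a : Fin 4 → K := fun j => T ^ (D + 1) * (1 + ε * α j) with ha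
  set b : Fin 4 → K := fun j => T * (1 + ε * β j) with hb
  have hdm : ∀ n : ℕ, (D + 1) * (n / (D + 1)) + n % (D + 1) = n := fun n => Nat.div_add_mod _ _
  have hPQ : ∀ n, Mo a b (n / (D + 1)) (n % (D + 1)) = T ^ n * aeval (pt ε z) (P n) := by
    intro n
    rw [ha, hb, Mo_scale, hdm n]
    congr 1
    have h1 := map_Dh ((aeval (pt ε z) : Pk k →ₐ[k] K) : Pk k →+* K) (X none) (va k) (vb k)
      (n / (D + 1)) (n % (D + 1))
    have h1' : aeval (pt ε z) (P n) = Dh (aeval (pt ε z) (X none : Pk k))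
      (fun j => aeval (pt ε z) (va k j)) (fun j => aeval (pt ε z) (vb k j)) (n / (D + 1))
      (n % (D + 1)) := h1
    rw [h1', hxe, Dh_eq]
    simp only [hva, hvb]
  have hgz : ∀ i, ∑ n ∈ Smix D, algebraMap k K (g i n) * Mo a b (n / (D + 1)) (n % (D + 1)) = 0 := by
    intro i
    rw [unscale D (g i) (m i) (hg2 i) P _ ε hε z hPQ]
    have h1 := hz i
    simp only [hE] at h1
    rw [map_mul, mul_eq_zero] at h1
    rcases h1 with h1 | h1
    · exfalso
      rw [aeval_C] at h1
      have h5 := (map_eq_zero (algebraMap k K)).1 h1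
      exact inv_ne_zero (mul_ne_zero (hk0 i) (hl0 i)) h5
    · have h1' : aeval (pt ε z) (∑ n ∈ Smix D, C (g i n) * (X none ^ (5 * (m i - n)) * P n)) = 0 :=
        h1
      rw [h1', mul_zero]
  refine ⟨a, b, fun j h => ?_, fun j h => ?_, fun i => ?_, fun i hi j j' => ?_⟩
  · have h1 := mul_left_cancel₀ (pow_ne_zero (D + 1) hT0) h
    exact hαne j (mul_left_cancel₀ hε (add_left_cancel h1))
  · have h1 := mul_left_cancel₀ hT0 h
    exact hβne j (mul_left_cancel₀ hε (add_left_cancel h1))
  · obtain ⟨c, hc⟩ := hspan i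
    have h1 : ∑ n ∈ Smix D, algebraMap k K (u i n) * Mo a b (n / (D + 1)) (n % (D + 1)) =
        ∑ l, algebraMap k K (c l) * ∑ n ∈ Smix D, algebraMap k K (g l n) *
          Mo a b (n / (D + 1)) (n % (D + 1)) := by
      simp only [Finset.mul_sum]
      rw [Finset.sum_comm]
      refine Finset.sum_congr rfl fun n _ => ?_
      rw [hc n, map_sum, Finset.sum_mul]
      refine Finset.sum_congr rfl fun l _ => ?_
      rw [map_mul]
      ring
    rw [h1]
    exact Finset.sum_eq_zero fun l _ => by rw [hgz l, mul_zero]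
  · have hPQ2 : ∀ n, ((a j ^ (n / (D + 1)) - a (j + 1) ^ (n / (D + 1))) *
        (b j' ^ (n % (D + 1)) - b (j' + 1) ^ (n % (D + 1)))) = T ^ n * aeval (pt ε z)
        (((1 + X none * va k j) ^ (n / (D + 1)) - (1 + X none * va k (j + 1)) ^ (n / (D + 1))) *
        ((1 + X none * vb k j') ^ (n % (D + 1)) - (1 + X none * vb k (j' + 1)) ^ (n % (D + 1)))) := by
      intro n
      simp only [map_mul, map_sub, map_pow, map_add, map_one, hva, hvb, hxe]
      have h5 : T ^ n = (T ^ (D + 1)) ^ (n / (D + 1)) * T ^ (n % (D + 1)) := by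
        rw [← pow_mul, ← pow_add, hdm n]
      rw [h5]
      simp only [ha, hb, mul_pow]
      ring
    rw [unscale D (u i) (top i j j') (htop i j j') _ _ ε hε z hPQ2, hHs i j j' hi, map_mul,
      map_pow, hxe]
    refine mul_ne_zero (pow_ne_zero _ hT0) (mul_ne_zero (pow_ne_zero _ hε) ?_)
    have h1 := Finset.prod_ne_zero_iff.1 hHz3 i (Finset.mem_univ i)
    rw [map_prod] at h1
    have h5 := Finset.prod_ne_zero_iff.1 h1 j (Finset.mem_univ j)
    rw [map_prod] at h5
    exact Finset.prod_ne_zero_iff.1 h5 j' (Finset.mem_univ j')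


end Pool.Agent.H51.CST
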